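import Pool.Agent.H33.HH.TD

set_option autoImplicit false

open NumberField Filter Topology

namespace Pool.Agent.H97.HH

open Pool.Agent.H33.HH Pool.Agent.H28.RC Pool.Agent.H37.CV

theorem tai_fin (K : Type) [Field K] [NumberField K] (x : ℝ) :
    {I : Ideal (𝓞 K) | I ≠ ⊥ ∧ nm I ≤ x}.Finite := by
  refine (Ideal.finite_setOf_absNorm_le (S := 𝓞 K) ⌊x⌋₊).subset fun I hI => ?_
  have h := hI.2
  unfold nm at h
  exact Nat.le_floor h

theorem tai_al (h1 : T_PRB) (K : Type) [Field K] [NumberField K] (hK : Module.finrank ℚ K = 2)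
    (x : ℝ) (hx : 1 ≤ x) : (Al K x).Finite ∧ ((Al K x).ncard : ℝ) ≤
      4 * hc K * x * ({I : Ideal (𝓞 K) | I ≠ ⊥ ∧ nm I ≤ x}.ncard : ℝ) := by
  classical
  have hf := tai_fin K x
  have hP : ∀ f : Ideal (𝓞 K), f ≠ ⊥ → (Pr K f).Finite ∧ ((Pr K f).ncard : ℝ) ≤
      4 * hc K * nm f := by
    intro f hf0
    obtain ⟨g1, g2⟩ := h1 K f 1 1 hf0 le_rfl (fun i hi hi1 => by omega)
    refine ⟨g1, ?_⟩
    have hr : InfinitePlace.nrRealPlaces K ≤ 2 := by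
      have := InfinitePlace.card_add_two_mul_card_eq_rank K
      omega
    have g3 : (2 : ℕ) ^ InfinitePlace.nrRealPlaces K ≤ 4 :=
      (Nat.pow_le_pow_right (by norm_num) hr).trans (by norm_num)
    have g4 : (Pr K f).ncard ≤ 4 * classNumber K * Ideal.absNorm f := by
      rw [one_mul] at g2
      exact g2.trans (Nat.mul_le_mul_right _ (Nat.mul_le_mul_right _ g3))
    have g5 : ((Pr K f).ncard : ℝ) ≤ ((4 * classNumber K * Ideal.absNorm f : ℕ) : ℝ) := by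
      exact_mod_cast g4
    refine g5.trans (le_of_eq ?_)
    push_cast
    rfl
  have hU : Al K x ⊆ ⋃ f ∈ hf.toFinset, Pr K f := by
    intro χ hχ
    rw [Set.mem_iUnion₂]
    exact ⟨χ.f, hf.mem_toFinset.2 ⟨χ.f_ne, hχ⟩, rfl⟩
  have hfinU : (⋃ f ∈ hf.toFinset, Pr K f).Finite :=
    Set.Finite.biUnion (Finset.finite_toSet _) fun f hf' => (hP f (hf.mem_toFinset.1 hf').1).1
  refine ⟨hfinU.subset hU, ?_⟩
  have g1 : (Al K x).ncard ≤ ∑ f ∈ hf.toFinset, (Pr K f).ncard :=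
    (Set.ncard_le_ncard hU hfinU).trans (Finset.set_ncard_biUnion_le _ _)
  have g2 : ((Al K x).ncard : ℝ) ≤ ∑ f ∈ hf.toFinset, ((Pr K f).ncard : ℝ) := by exact_mod_cast g1
  have hh : 0 ≤ hc K := Nat.cast_nonneg _
  refine g2.trans ?_
  refine (Finset.sum_le_sum fun f hf' => ((hP f (hf.mem_toFinset.1 hf').1).2.trans
    (mul_le_mul_of_nonneg_left (hf.mem_toFinset.1 hf').2 (by positivity)))).trans (le_of_eq ?_)
  rw [Finset.sum_const, nsmul_eq_mul, ← Set.ncard_eq_toFinset_card _ hf]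
  ring

theorem tai_log (t : ℝ) (ht : 1 ≤ t) : (1 + Real.log t) ^ 2 ≤ 81 * t ^ (1 / 4 : ℝ) := by
  have h0 : 0 ≤ Real.log t := Real.log_nonneg ht
  have h1 : Real.log t ≤ t ^ (1 / 8 : ℝ) / (1 / 8) :=
    Real.log_le_rpow_div (by linarith) (by norm_num)
  have h2 : 1 ≤ t ^ (1 / 8 : ℝ) := Real.one_le_rpow ht (by norm_num)
  have h3 : t ^ (1 / 4 : ℝ) = (t ^ (1 / 8 : ℝ)) ^ 2 := by
    rw [← Real.rpow_natCast, ← Real.rpow_mul (by linarith)]
    norm_num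
  rw [h3]
  have h4 : 1 + Real.log t ≤ 9 * t ^ (1 / 8 : ℝ) := by
    have : t ^ (1 / 8 : ℝ) / (1 / 8) = 8 * t ^ (1 / 8 : ℝ) := by ring
    linarith
  nlinarith

theorem pf_TAI (h1 : T_PRB) (h2 : T_IDB) (h3 : T_CNB) (h4 : T_FDS) (h5 : T_TSD) : T_TAI := by
  obtain ⟨C₁, hC₁, hI⟩ := h2
  obtain ⟨C₂, hC₂, hN⟩ := h3
  obtain ⟨C₅, hC₅, hS⟩ := h5
  refine ⟨324 * C₁ * C₂ * C₅, by positivity, ?_⟩
  intro K _ _ hK X Y hX hY
  have hFd : ∀ d ∈ Fd' X, IsFund d := by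
    intro d hd
    classical
    unfold Fd' at hd
    exact (Finset.mem_filter.1 hd).2
  have main : ∀ d ∈ Fd' X, (Al (K d) (X / |(d : ℝ)|)).Finite ∧
      ((Al (K d) (X / |(d : ℝ)|)).ncard : ℝ) ≤ 324 * C₁ * C₂ * X ^ 2 * |(d : ℝ)| ^ (-(5 / 4) : ℝ) := by
    intro d hd
    have hfd := hFd d hd
    obtain ⟨k1, k2⟩ := hK d hfd
    obtain ⟨d1, d2⟩ := h4 d hfd
    have hdX : |(d : ℝ)| ≤ X := (d2 X (by linarith)).1 hd
    have hd0 : 0 < |(d : ℝ)| := by linarith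
    have hx1 : 1 ≤ X / |(d : ℝ)| := by rw [le_div_iff₀ hd0]; linarith
    obtain ⟨a1, a2⟩ := tai_al h1 (K d) k1 (X / |(d : ℝ)|) hx1
    refine ⟨a1, ?_⟩
    have b1 := hI (K d) (X / |(d : ℝ)|) k1 (by rw [k2]; exact hfd) hx1
    have b2 := hN (K d) k1 (by rw [k2]; exact hfd)
    rw [k2] at b1 b2
    have hL0 : 0 ≤ Real.log |(d : ℝ)| := Real.log_nonneg (by linarith)
    have hh : 0 ≤ hc (K d) := Nat.cast_nonneg _
    have hlog := tai_log |(d : ℝ)| (by linarith)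
    set t := |(d : ℝ)| with ht
    have e1 : ((Al (K d) (X / t)).ncard : ℝ) ≤ 4 * (C₂ * Real.sqrt t * (1 + Real.log t)) * (X / t) *
        (C₁ * (X / t) * (1 + Real.log t)) := by
      refine a2.trans ?_
      have hxt : 0 ≤ X / t := by linarith
      have : 4 * hc (K d) * (X / t) ≤ 4 * (C₂ * Real.sqrt t * (1 + Real.log t)) * (X / t) :=
        mul_le_mul_of_nonneg_right (by linarith) hxt
      exact mul_le_mul this b1 (Nat.cast_nonneg _) (by positivity)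
    refine e1.trans ?_
    have e2 : 4 * (C₂ * Real.sqrt t * (1 + Real.log t)) * (X / t) *
        (C₁ * (X / t) * (1 + Real.log t)) = 4 * C₁ * C₂ * X ^ 2 * (Real.sqrt t / t ^ 2) *
          (1 + Real.log t) ^ 2 := by
      field_simp
    rw [e2]
    have e3 : Real.sqrt t / t ^ 2 * t ^ (1 / 4 : ℝ) = t ^ (-(5 / 4) : ℝ) := by
      rw [Real.sqrt_eq_rpow, ← Real.rpow_natCast, ← Real.rpow_sub hd0, ← Real.rpow_add hd0]
      norm_num
    have e4 : 0 ≤ Real.sqrt t / t ^ 2 := by positivity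
    calc 4 * C₁ * C₂ * X ^ 2 * (Real.sqrt t / t ^ 2) * (1 + Real.log t) ^ 2
        ≤ 4 * C₁ * C₂ * X ^ 2 * (Real.sqrt t / t ^ 2) * (81 * t ^ (1 / 4 : ℝ)) :=
          mul_le_mul_of_nonneg_left hlog (by positivity)
      _ = 324 * C₁ * C₂ * X ^ 2 * (Real.sqrt t / t ^ 2 * t ^ (1 / 4 : ℝ)) := by ring
      _ = _ := by rw [e3]
  refine ⟨fun d hd => (main d hd).1, ?_⟩
  refine (Finset.sum_le_sum fun d hd => (main d (Finset.mem_filter.1 hd).1).2).trans ?_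
  rw [← Finset.mul_sum]
  have := hS ((Fd' X).filter (fun d : ℤ => Y < |(d : ℝ)|)) Y hY (fun d hd => (Finset.mem_filter.1 hd).2)
  calc 324 * C₁ * C₂ * X ^ 2 * ∑ d ∈ (Fd' X).filter (fun d : ℤ => Y < |(d : ℝ)|),
        |(d : ℝ)| ^ (-(5 / 4) : ℝ) ≤ 324 * C₁ * C₂ * X ^ 2 * (C₅ * Y ^ (-(1 / 4) : ℝ)) :=
        mul_le_mul_of_nonneg_left this (by positivity)
    _ = _ := by ring

end Pool.Agent.H97.HH
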