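import Pool.Agent.H33.HH.TC

set_option autoImplicit false

open Complex MeasureTheory Filter Topology FourierTransform
open scoped ContDiff

namespace Pool.Agent.H97.HH

open Pool.Agent.H33.HH

theorem iter_ofReal (g : ℝ → ℝ) (hg : ContDiff ℝ ∞ g) (k : ℕ) :
    iteratedDeriv k (fun x => (g x : ℂ)) = fun x => ((iteratedDeriv k g x : ℝ) : ℂ) := by
  induction k with
  | zero => simp
  | succ k ih =>
    rw [iteratedDeriv_succ, iteratedDeriv_succ, ih]
    have hd : Differentiable ℝ (iteratedDeriv k g) :=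
      hg.differentiable_iteratedDeriv k (by exact_mod_cast WithTop.coe_lt_top k)
    funext x
    exact (hd x).hasDerivAt.ofReal_comp.deriv

theorem supp_iter (g : ℝ → ℝ) (hs : HasCompactSupport g) (k : ℕ) :
    HasCompactSupport (iteratedDeriv k g) := by
  induction k with
  | zero => simpa using hs
  | succ k ih => rw [iteratedDeriv_succ]; exact ih.deriv

theorem pf_EM1 : T_EM1 := by
  intro k hk
  have hsum : Summable fun m : ℤ => (‖(2 * Real.pi * I * m : ℂ)‖ ^ k)⁻¹ := by
    have h1 := (Real.summable_one_div_int_pow.2 (show 1 < k by omega)).norm.mul_left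
      ((2 * Real.pi) ^ k)⁻¹
    refine h1.congr fun m => ?_
    have : ‖(2 * Real.pi * I * m : ℂ)‖ = 2 * Real.pi * |(m : ℝ)| := by
      rw [norm_mul, norm_mul, norm_mul, norm_I, Complex.norm_intCast, Complex.norm_real,
        Real.norm_of_nonneg Real.pi_pos.le]
      simp
    rw [this, mul_pow _ |(m : ℝ)|, mul_inv, norm_div, norm_one, norm_pow, Real.norm_eq_abs, one_div]
  refine ⟨∑' m : ℤ, (‖(2 * Real.pi * I * m : ℂ)‖ ^ k)⁻¹, tsum_nonneg fun m => by positivity, ?_⟩
  intro g hg hs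
  set f : ℝ → ℂ := fun x => (g x : ℂ) with hf
  have hfc : ContDiff ℝ ∞ f := Complex.ofRealCLM.contDiff.comp hg
  have hfs : HasCompactSupport f := hs.comp_left (g := fun x : ℝ => (x : ℂ)) (by simp)
  have hint : ∀ n : ℕ, Integrable (iteratedDeriv n g) := fun n =>
    (hg.continuous_iteratedDeriv n (by exact_mod_cast (WithTop.coe_lt_top n).le)).integrable_of_hasCompactSupport
      (supp_iter g hs n)
  have hintf : ∀ n : ℕ, Integrable (iteratedDeriv n f) := fun n => by
    rw [iter_ofReal g hg n]; exact (hint n).ofReal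
  set J := ∫ x, |iteratedDeriv k g x| with hJ
  have hJ0 : 0 ≤ J := integral_nonneg fun x => abs_nonneg _
  have hb : ∀ m : ℤ, m ≠ 0 → ‖𝓕 f (m : ℝ)‖ ≤ (‖(2 * Real.pi * I * m : ℂ)‖ ^ k)⁻¹ * J := by
    intro m hm
    have h1 := congrFun (Real.fourier_iteratedDeriv (N := k) (n := k) (f := f)
      (hfc.of_le (by exact_mod_cast le_top)) (fun n _ => hintf n) le_rfl) (m : ℝ)
    have h2 : ‖𝓕 (iteratedDeriv k f) (m : ℝ)‖ ≤ J := by
      refine (VectorFourier.norm_fourierIntegral_le_integral_norm _ _ _ _ _).trans (le_of_eq ?_)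
      rw [iter_ofReal g hg k]
      simp [hJ]
    rw [h1, norm_smul, norm_pow] at h2
    have h3 : 0 < ‖(2 * Real.pi * I * m : ℂ)‖ ^ k := by
      refine pow_pos (norm_pos_iff.2 ?_) k
      simp [Real.pi_ne_zero, hm]
    rw [inv_mul_eq_div, le_div_iff₀ h3, mul_comm]
    simpa using h2
  have hFs : Summable fun m : ℤ => 𝓕 f (m : ℝ) := by
    refine Summable.of_norm_bounded_eventually (hsum.mul_right J) ?_
    refine (Set.finite_singleton (0 : ℤ)).subset fun m hm => ?_
    by_contra h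
    exact hm (hb m h)
  have hP : ∑' n : ℤ, f (0 + n) = ∑' n : ℤ, 𝓕 f (n : ℝ) * fourier n ((0 : ℝ) : UnitAddCircle) :=
    (hfs.toSchwartzMap hfc).tsum_eq_tsum_fourier 0
  have hP' : ∑' n : ℤ, f n = ∑' n : ℤ, 𝓕 f (n : ℝ) := by
    simpa using hP
  have h0 : 𝓕 f ((0 : ℤ) : ℝ) = ((∫ x, g x : ℝ) : ℂ) := by
    rw [Real.fourier_real_eq_integral_exp_smul]
    refine Eq.trans ?_ (integral_ofReal (𝕜 := ℂ))
    refine integral_congr_ae (Filter.Eventually.of_forall fun x => ?_)
    simp [hf]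
  have hre : ∑' n : ℤ, f n = ((∑' n : ℤ, g n : ℝ) : ℂ) := (Complex.ofReal_tsum _).symm
  rw [hFs.tsum_eq_add_tsum_ite 0, h0, hre] at hP'
  have h4 : (((∑' n : ℤ, g n) - ∫ x, g x : ℝ) : ℂ) = ∑' n : ℤ, if n = 0 then 0 else 𝓕 f (n : ℝ) := by
    rw [Complex.ofReal_sub, hP', add_sub_cancel_left]
  rw [← Real.norm_eq_abs, ← Complex.norm_real, h4, ← tsum_mul_right]
  refine tsum_of_norm_bounded (hsum.mul_right J).hasSum fun m => ?_
  split_ifs with h
  · simp only [norm_zero]; positivity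
  · exact hb m h

end Pool.Agent.H97.HH
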