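import Pool.Agent.H33.HH.TD

set_option autoImplicit false

open NumberField Filter Topology

namespace Pool.Agent.H97.HH

open Pool.Agent.H33.HH Pool.Agent.H28.RC Pool.Agent.H37.CV

theorem ka_rpow (C δ : ℝ) (hδ : 0 < δ) : ∃ x₁ : ℝ, 1 ≤ x₁ ∧ ∀ x : ℝ, x₁ ≤ x →
    C * x ^ (7 / 4 : ℝ) ≤ δ * x ^ 2 := by
  have h1 : Tendsto (fun x : ℝ => C * x ^ (-(1 / 4 : ℝ))) atTop (𝓝 (C * 0)) :=
    (tendsto_rpow_neg_atTop (by norm_num : (0 : ℝ) < 1 / 4)).const_mul C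
  rw [mul_zero] at h1
  obtain ⟨x₁, h2⟩ := eventually_atTop.1 ((tendsto_order.1 h1).2 δ hδ)
  refine ⟨max 1 x₁, le_max_left _ _, fun x hx => ?_⟩
  have hx0 : 0 < x := lt_of_lt_of_le one_pos ((le_max_left _ _).trans hx)
  have h3 := h2 x ((le_max_right _ _).trans hx)
  have h4 : x ^ (7 / 4 : ℝ) = x ^ (-(1 / 4 : ℝ)) * x ^ 2 := by
    rw [← Real.rpow_natCast, ← Real.rpow_add hx0]
    norm_num
  rw [h4, ← mul_assoc]
  exact mul_le_mul_of_nonneg_right h3.le (by positivity)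

theorem pf_KA (h1 : T_LOW) (h2 : T_LB3) (h3 : T_INV) : T_KA := by
  intro K _ _ hK
  obtain ⟨C, hC, hI⟩ := h3 K hK.two
  obtain ⟨c, x₀, hc, hx₀, hL⟩ := h2 K
  -- the sets
  have key : ∀ x : ℝ, 1 ≤ x → (Al K x).Finite → (Ui K x).Finite ∧
      ((Al K x).ncard : ℝ) ≤ ((Ui K x).ncard : ℝ) + C * x ^ (7 / 4 : ℝ) ∧
      ((Ui K x).ncard : ℝ) ≤ ((Al K x).ncard : ℝ) ∧
      ({χ : RCC K | χ ∈ Al K x ∧ NV χ}.ncard : ℝ) ≤
        ({χ : RCC K | χ ∈ Ui K x ∧ NV χ}.ncard : ℝ) + C * x ^ (7 / 4 : ℝ) := by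
    intro x hx hfin
    have hIx := hI x hx
    have hUi : Ui K x ⊆ Al K x := fun χ h => h.2
    have hIv : {χ : RCC K | ¬ NotInv χ ∧ nm χ.f ≤ x} ⊆ Al K x := fun χ h => h.2
    have f1 := hfin.subset hUi
    have f2 := hfin.subset hIv
    refine ⟨f1, ?_, ?_, ?_⟩
    · have : Al K x ⊆ Ui K x ∪ {χ : RCC K | ¬ NotInv χ ∧ nm χ.f ≤ x} := by
        intro χ h
        by_cases hn : NotInv χ
        · exact Or.inl ⟨hn, h⟩
        · exact Or.inr ⟨hn, h⟩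
      have h4 := (Set.ncard_le_ncard this (f1.union f2)).trans (Set.ncard_union_le _ _)
      have h5 : ((Al K x).ncard : ℝ) ≤ ((Ui K x).ncard : ℝ) +
          ({χ : RCC K | ¬ NotInv χ ∧ nm χ.f ≤ x}.ncard : ℝ) := by exact_mod_cast h4
      linarith
    · exact_mod_cast Set.ncard_le_ncard hUi hfin
    · have : {χ : RCC K | χ ∈ Al K x ∧ NV χ} ⊆ {χ : RCC K | χ ∈ Ui K x ∧ NV χ} ∪
          {χ : RCC K | ¬ NotInv χ ∧ nm χ.f ≤ x} := by
        rintro χ ⟨h, hv⟩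
        by_cases hn : NotInv χ
        · exact Or.inl ⟨⟨hn, h⟩, hv⟩
        · exact Or.inr ⟨hn, h⟩
      have f3 : {χ : RCC K | χ ∈ Ui K x ∧ NV χ}.Finite := f1.subset fun χ h => h.1
      have h4 := (Set.ncard_le_ncard this (f3.union f2)).trans (Set.ncard_union_le _ _)
      have h5 : ({χ : RCC K | χ ∈ Al K x ∧ NV χ}.ncard : ℝ) ≤
          ({χ : RCC K | χ ∈ Ui K x ∧ NV χ}.ncard : ℝ) +
          ({χ : RCC K | ¬ NotInv χ ∧ nm χ.f ≤ x}.ncard : ℝ) := by exact_mod_cast h4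
      linarith
  obtain ⟨xf, hxf, hfin⟩ := h1 K 1 one_pos
  refine ⟨?_, ?_⟩
  · obtain ⟨x₁, hx₁, h4⟩ := ka_rpow C (c / 2) (by positivity)
    refine ⟨c / 2, max (max x₀ x₁) xf, by positivity, hx₀.trans ((le_max_left _ _).trans
      (le_max_left _ _)), fun x hx => ?_⟩
    have e1 : x₀ ≤ x := (le_max_left _ _).trans ((le_max_left _ _).trans hx)
    have e2 : x₁ ≤ x := (le_max_right _ _).trans ((le_max_left _ _).trans hx)
    have e3 : xf ≤ x := (le_max_right _ _).trans hx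
    have k := key x (hx₀.trans e1) (hfin x e3).1
    have := hL x e1
    have := h4 x e2
    linarith [k.2.1]
  · intro ε hε
    by_cases hε2 : ε ≤ 1 / 2
    · obtain ⟨xe, hxe, hlow⟩ := h1 K (ε / 2) (by positivity)
      obtain ⟨x₁, hx₁, h4⟩ := ka_rpow C (ε / 2 * c) (by positivity)
      refine ⟨max (max x₀ x₁) xe, hx₀.trans ((le_max_left _ _).trans
        (le_max_left _ _)), fun x hx => ?_⟩
      have e1 : x₀ ≤ x := (le_max_left _ _).trans ((le_max_left _ _).trans hx)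
      have e2 : x₁ ≤ x := (le_max_right _ _).trans ((le_max_left _ _).trans hx)
      have e3 : xe ≤ x := (le_max_right _ _).trans hx
      obtain ⟨g1, g2⟩ := hlow x e3
      obtain ⟨k1, k2, k3, k4⟩ := key x (hx₀.trans e1) g1
      refine ⟨k1, ?_⟩
      have g3 := hL x e1
      have g4 := h4 x e2
      have g5 : (1 / 2 - ε) * ((Ui K x).ncard : ℝ) ≤ (1 / 2 - ε) * ((Al K x).ncard : ℝ) :=
        mul_le_mul_of_nonneg_left k3 (by linarith)
      have g6 : ε / 2 * (c * x ^ 2) ≤ ε / 2 * ((Al K x).ncard : ℝ) :=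
        mul_le_mul_of_nonneg_left g3 (by positivity)
      nlinarith
    · refine ⟨xf, hxf, fun x hx => ?_⟩
      obtain ⟨k1, -, -, -⟩ := key x (hxf.trans hx) (hfin x hx).1
      refine ⟨k1, le_trans (mul_nonpos_of_nonpos_of_nonneg (by linarith) (Nat.cast_nonneg _))
        (Nat.cast_nonneg _)⟩

end Pool.Agent.H97.HH
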